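import Mathlib

/-!
# Continuous endomorphisms of `K^ℕ` have algebraic entropy `0` or `∞`

Idea of the proof. Let `G` be a compact torsion abelian group and `φ` a continuous endomorphism.
If for some finite subgroup `F` every `x` satisfies `φ ^ n x ∈ T_n(φ, ⟨x⟩) + T_N(φ, F)` for some
`n, N`, then `G` is a countable union of closed sets
`{x | φ ^ n x = ∑ c_i φ ^ i x + v}`; by the Baire category theorem some
`ker (φ ^ n - ∑ c_i φ ^ i)` is open, hence of finite index, and then `φ` satisfies a monic integer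
polynomial and has entropy `0`. Otherwise every finite subgroup `F` can be enlarged by one element
`x` such that `|T_n(φ, F + ⟨x⟩)| ≥ 2 ^ n |T_n(φ, F)|`, and the entropy is infinite.
-/

set_option autoImplicit false

open Filter Topology

namespace Pool.Agent.Results.MP_e13f3c_al.EntropyDichotomy

universe u

section defs

variable {G : Type u} [AddCommGroup G]

/-- The `n`-th iterate `φ ∘ ⋯ ∘ φ` of an endomorphism. -/
def it (φ : G →+ G) : ℕ → (G →+ G)
  | 0 => AddMonoidHom.id G
  | n + 1 => φ.comp (it φ n)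

/-- `T_n(φ, F) = F + φ(F) + ⋯ + φ^{n-1}(F)`. -/
def T (φ : G →+ G) (F : AddSubgroup G) (n : ℕ) : AddSubgroup G :=
  ⨆ i : Fin n, F.map (it φ i)

/-- `H(φ, F) = lim_n log |T_n(φ, F)| / n`; the limit exists by `tendsto_H`. -/
noncomputable def H (φ : G →+ G) (F : AddSubgroup G) : ℝ :=
  limUnder atTop (fun n : ℕ => Real.log (Nat.card (T φ F n)) / n)

/-- The algebraic entropy: the supremum of `H(φ, F)` over all finite subgroups `F`. -/
noncomputable def ent (φ : G →+ G) : EReal :=
  ⨆ F : {F : AddSubgroup G // Finite F}, (H φ F.1 : EReal)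

end defs

section basic

variable {G : Type u} [AddCommGroup G] (φ : G →+ G) (F : AddSubgroup G)

lemma it_apply (n : ℕ) (x : G) : it φ n x = φ^[n] x := by
  induction n with
  | zero => rfl
  | succ n ih => rw [Function.iterate_succ_apply', ← ih]; rfl

lemma it_add_apply (m n : ℕ) (x : G) : it φ (m + n) x = it φ m (it φ n x) := by
  simp only [it_apply, Function.iterate_add_apply]

lemma it_comp (m n : ℕ) : (it φ m).comp (it φ n) = it φ (m + n) := by
  ext x
  rw [AddMonoidHom.comp_apply, it_add_apply]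

lemma T_zero : T φ F 0 = ⊥ := by
  simp [T]

lemma T_succ (n : ℕ) : T φ F (n + 1) = T φ F n ⊔ F.map (it φ n) := by
  apply le_antisymm
  · refine iSup_le fun i => ?_
    rcases Nat.lt_succ_iff_lt_or_eq.1 i.2 with h | h
    · exact le_sup_of_le_left (le_iSup (fun j : Fin n => F.map (it φ j)) ⟨i, h⟩)
    · rw [h]; exact le_sup_right
  · refine sup_le (iSup_le fun i => ?_) ?_
    · exact le_iSup (fun j : Fin (n + 1) => F.map (it φ j)) i.castSucc
    · exact le_iSup (fun j : Fin (n + 1) => F.map (it φ j)) (Fin.last n)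

lemma T_mono {m n : ℕ} (h : m ≤ n) : T φ F m ≤ T φ F n := by
  induction n, h using Nat.le_induction with
  | base => exact le_rfl
  | succ n _ ih => rw [T_succ]; exact ih.trans le_sup_left

lemma T_sup (F' : AddSubgroup G) (n : ℕ) : T φ (F ⊔ F') n = T φ F n ⊔ T φ F' n := by
  induction n with
  | zero => simp [T_zero]
  | succ n ih =>
    rw [T_succ, T_succ, T_succ, ih, AddSubgroup.map_sup]
    ac_rfl

lemma T_map (n k : ℕ) : (T φ F n).map (it φ k) ≤ T φ F (k + n) := by
  induction n with
  | zero => simp [T_zero]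
  | succ n ih =>
    rw [T_succ, AddSubgroup.map_sup]
    refine sup_le (ih.trans (T_mono φ F (by omega))) ?_
    rw [show k + (n + 1) = (k + n) + 1 by ring, T_succ]
    refine le_sup_of_le_right ?_
    rw [AddSubgroup.map_map]
    rw [it_comp]

lemma T_add (n k : ℕ) : T φ F (k + n) ≤ T φ F k ⊔ (T φ F n).map (it φ k) := by
  induction n with
  | zero => simp
  | succ n ih =>
    rw [show k + (n + 1) = (k + n) + 1 by ring, T_succ]
    refine sup_le (ih.trans (sup_le_sup_left (AddSubgroup.map_mono (T_mono φ F (by omega))) _)) ?_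
    refine le_sup_of_le_right ?_
    rw [T_succ, AddSubgroup.map_sup]
    refine le_sup_of_le_right ?_
    rw [AddSubgroup.map_map]
    rw [it_comp]

lemma card_sup_le (A B : AddSubgroup G) [Finite A] [Finite B] :
    Finite (A ⊔ B : AddSubgroup G) ∧
      Nat.card (A ⊔ B : AddSubgroup G) ≤ Nat.card A * Nat.card B := by
  let f : A × B → (A ⊔ B : AddSubgroup G) := fun p =>
    ⟨p.1 + p.2, add_mem (AddSubgroup.mem_sup_left p.1.2) (AddSubgroup.mem_sup_right p.2.2)⟩
  have hf : Function.Surjective f := by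
    rintro ⟨y, hy⟩
    obtain ⟨a, ha, b, hb, rfl⟩ := AddSubgroup.mem_sup.1 hy
    exact ⟨(⟨a, ha⟩, ⟨b, hb⟩), rfl⟩
  refine ⟨Finite.of_surjective f hf, ?_⟩
  rw [← Nat.card_prod]
  exact Nat.card_le_card_of_surjective f hf

instance finite_map (A : AddSubgroup G) [Finite A] (ψ : G →+ G) : Finite (A.map ψ) := by
  have : Function.Surjective (ψ.addSubgroupMap A) := ψ.addSubgroupMap_surjective A
  exact Finite.of_surjective _ this

lemma card_map_le (A : AddSubgroup G) [Finite A] (ψ : G →+ G) :
    Nat.card (A.map ψ) ≤ Nat.card A :=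
  Nat.card_le_card_of_surjective _ (ψ.addSubgroupMap_surjective A)

lemma T_finite [Finite F] (n : ℕ) : Finite (T φ F n) := by
  induction n with
  | zero => rw [T_zero]; infer_instance
  | succ n ih => rw [T_succ]; exact (card_sup_le _ _).1

lemma card_pos [Finite F] (n : ℕ) : 0 < Nat.card (T φ F n) := by
  have := T_finite φ F n
  exact Nat.card_pos

lemma card_T_add [Finite F] (k n : ℕ) :
    Nat.card (T φ F (k + n)) ≤ Nat.card (T φ F k) * Nat.card (T φ F n) := by
  have := T_finite φ F k
  have := T_finite φ F n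
  have h := card_sup_le (T φ F k) ((T φ F n).map (it φ k))
  have := h.1
  calc Nat.card (T φ F (k + n))
      ≤ Nat.card (T φ F k ⊔ (T φ F n).map (it φ k) : AddSubgroup G) :=
        AddSubgroup.card_le_of_le (T_add φ F n k)
    _ ≤ Nat.card (T φ F k) * Nat.card ((T φ F n).map (it φ k)) := h.2
    _ ≤ _ := Nat.mul_le_mul_left _ (card_map_le _ _)

/-- The limit in the definition of `H` exists. -/
lemma tendsto_H [Finite F] :
    Tendsto (fun n : ℕ => Real.log (Nat.card (T φ F n)) / n) atTop (𝓝 (H φ F)) := by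
  have hsub : Subadditive (fun n : ℕ => Real.log (Nat.card (T φ F n))) := by
    intro m n
    have h1 : (0 : ℝ) < Nat.card (T φ F m) := by exact_mod_cast card_pos φ F m
    have h2 : (0 : ℝ) < Nat.card (T φ F n) := by exact_mod_cast card_pos φ F n
    have h3 : (0 : ℝ) < Nat.card (T φ F (m + n)) := by exact_mod_cast card_pos φ F (m + n)
    rw [← Real.log_mul h1.ne' h2.ne']
    refine Real.log_le_log h3 ?_
    exact_mod_cast card_T_add φ F m n
  have hbdd : BddBelow (Set.range fun n : ℕ => Real.log (Nat.card (T φ F n)) / n) := by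
    refine ⟨0, ?_⟩
    rintro _ ⟨n, rfl⟩
    exact div_nonneg (Real.log_natCast_nonneg _) (Nat.cast_nonneg _)
  exact tendsto_nhds_limUnder ⟨_, hsub.tendsto_lim hbdd⟩

lemma H_nonneg [Finite F] : 0 ≤ H φ F :=
  ge_of_tendsto' (tendsto_H φ F) fun n =>
    div_nonneg (Real.log_natCast_nonneg _) (Nat.cast_nonneg _)

lemma ent_nonneg : 0 ≤ ent φ := by
  refine le_iSup_of_le (⟨⊥, inferInstance⟩ : {F : AddSubgroup G // Finite F}) ?_
  exact_mod_cast H_nonneg φ ⊥

lemma H_eq_zero_of_bdd [Finite F] (C : ℕ) (h : ∀ n, Nat.card (T φ F n) ≤ C) : H φ F = 0 := by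
  refine tendsto_nhds_unique (tendsto_H φ F) ?_
  refine squeeze_zero (fun n => div_nonneg (Real.log_natCast_nonneg _) (Nat.cast_nonneg _))
    (g := fun n : ℕ => Real.log C / n) (fun n => ?_) ?_
  · have h1 : (0 : ℝ) < Nat.card (T φ F n) := by exact_mod_cast card_pos φ F n
    refine div_le_div_of_nonneg_right (Real.log_le_log h1 ?_) (Nat.cast_nonneg _)
    exact_mod_cast h n
  · exact tendsto_const_div_atTop_nhds_zero_nat _

lemma le_H_of_le [Finite F] (k : ℕ) (h : ∀ n, 2 ^ (k * n) ≤ Nat.card (T φ F n)) :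
    k * Real.log 2 ≤ H φ F := by
  refine ge_of_tendsto (tendsto_H φ F) ?_
  filter_upwards [eventually_gt_atTop 0] with n hn
  have hn' : (0 : ℝ) < n := by exact_mod_cast hn
  rw [le_div_iff₀ hn']
  have h1 : ((2 : ℝ) ^ (k * n)) ≤ Nat.card (T φ F n) := by exact_mod_cast h n
  calc (k : ℝ) * Real.log 2 * n = Real.log ((2 : ℝ) ^ (k * n)) := by
        rw [Real.log_pow]; push_cast; ring
    _ ≤ _ := Real.log_le_log (by positivity) h1

lemma mem_T_zmultiples (x : G) (n : ℕ) {y : G}
    (hy : y ∈ T φ (AddSubgroup.zmultiples x) n) :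
    ∃ c : Fin n → ℤ, y = ∑ i, c i • (it φ i) x := by
  induction n generalizing y with
  | zero =>
    rw [T_zero, AddSubgroup.mem_bot] at hy
    exact ⟨fun _ => 0, by simp [hy]⟩
  | succ n ih =>
    rw [T_succ] at hy
    obtain ⟨a, ha, b, hb, rfl⟩ := AddSubgroup.mem_sup.1 hy
    obtain ⟨c, hc⟩ := ih ha
    obtain ⟨z, hz, rfl⟩ := AddSubgroup.mem_map.1 hb
    obtain ⟨k, rfl⟩ := AddSubgroup.mem_zmultiples_iff.1 hz
    refine ⟨Fin.snoc c k, ?_⟩
    rw [Fin.sum_univ_castSucc]
    simp only [Fin.snoc_castSucc, Fin.snoc_last, Fin.val_castSucc, Fin.val_last, hc]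
    congr 1
    exact map_zsmul (it φ n) k x

lemma pow_mem_T (x : G) {i n : ℕ} (h : i < n) :
    (it φ i) x ∈ T φ (AddSubgroup.zmultiples x) n := by
  have h1 : (AddSubgroup.zmultiples x).map (it φ i) ≤ T φ (AddSubgroup.zmultiples x) n :=
    le_iSup (fun j : Fin n => (AddSubgroup.zmultiples x).map (it φ j)) ⟨i, h⟩
  exact h1 (AddSubgroup.mem_map_of_mem _ (AddSubgroup.mem_zmultiples x))

/-- If the trajectories of all points stop growing at time `D`, the entropy is zero. -/
lemma ent_eq_zero (D : ℕ)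
    (h : ∀ x : G, (it φ D) x ∈ T φ (AddSubgroup.zmultiples x) D) : ent φ = 0 := by
  apply le_antisymm _ (ent_nonneg φ)
  refine iSup_le fun F => ?_
  obtain ⟨F, hF⟩ := F
  have : Finite F := hF
  have hle : ∀ x ∈ F, AddSubgroup.zmultiples x ≤ F := fun x hx => by
    rwa [AddSubgroup.zmultiples_le]
  have hmonoF : ∀ (A B : AddSubgroup G) (n : ℕ), A ≤ B → T φ A n ≤ T φ B n := by
    intro A B n hAB
    exact iSup_mono fun i => AddSubgroup.map_mono hAB
  have hD : F.map (it φ D) ≤ T φ F D := by
    rintro _ ⟨x, hx, rfl⟩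
    exact hmonoF _ _ D (hle x hx) (h x)
  have hall : ∀ n, T φ F n ≤ T φ F D ∧ F.map (it φ n) ≤ T φ F D := by
    intro n
    induction n with
    | zero =>
      refine ⟨by rw [T_zero]; exact bot_le, ?_⟩
      rcases Nat.eq_zero_or_pos D with h0 | h0
      · subst h0; exact hD
      · exact le_iSup (fun j : Fin D => F.map (it φ j)) ⟨0, h0⟩
    | succ n ih =>
      refine ⟨by rw [T_succ]; exact sup_le ih.1 ih.2, ?_⟩
      have h1 : F.map (it φ (n + 1)) ≤ (T φ F D).map (it φ 1) := by
        rw [add_comm n 1, ← it_comp, ← AddSubgroup.map_map]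
        exact AddSubgroup.map_mono ih.2
      refine h1.trans ((T_map φ F D 1).trans ?_)
      rw [add_comm 1 D, T_succ]
      exact sup_le le_rfl hD
  have hb : ∀ n, Nat.card (T φ F n) ≤ Nat.card (T φ F D) := fun n => by
    have := T_finite φ F D
    exact AddSubgroup.card_le_of_le (hall n).1
  have := H_eq_zero_of_bdd φ F _ hb
  simp [this]

lemma two_mul_card_le {A B : AddSubgroup G} [Finite B] (h : A < B) :
    2 * Nat.card A ≤ Nat.card B := by
  obtain ⟨k, hk⟩ := AddSubgroup.card_dvd_of_le h.le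
  have hB : 0 < Nat.card B := Nat.card_pos
  have hA : Nat.card A ≠ Nat.card B := by
    intro h1
    apply h.ne
    exact AddSubgroup.eq_of_le_of_card_ge h.le h1.ge
  have hk2 : 2 ≤ k := by
    rcases k with _ | _ | k
    · omega
    · exfalso; apply hA; rw [hk]; ring
    · omega
  rw [hk]
  nlinarith

/-- One more independent element doubles the size of the trajectory at each step. -/
lemma card_step [Finite F] (x : G) (hx : IsOfFinAddOrder x)
    (h : ∀ n N : ℕ, (it φ n) x ∉ T φ (AddSubgroup.zmultiples x) n ⊔ T φ F N) (n : ℕ) :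
    2 ^ n * Nat.card (T φ F n) ≤ Nat.card (T φ (F ⊔ AddSubgroup.zmultiples x) n) := by
  have : Finite (AddSubgroup.zmultiples x) := hx.finite_zmultiples
  have := T_finite φ F n
  have key : ∀ j, j ≤ n → 2 ^ j * Nat.card (T φ F n) ≤
      Nat.card (T φ F n ⊔ T φ (AddSubgroup.zmultiples x) j : AddSubgroup G) := by
    intro j
    induction j with
    | zero => intro _; simp [T_zero]
    | succ j ih =>
      intro hj
      have := T_finite φ (AddSubgroup.zmultiples x) (j + 1)
      have : Finite (T φ F n ⊔ T φ (AddSubgroup.zmultiples x) (j + 1) : AddSubgroup G) :=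
        (card_sup_le _ _).1
      have hlt : T φ F n ⊔ T φ (AddSubgroup.zmultiples x) j <
          T φ F n ⊔ T φ (AddSubgroup.zmultiples x) (j + 1) := by
        refine lt_of_le_of_ne (sup_le_sup_left (T_mono _ _ (by omega)) _) ?_
        intro heq
        apply h j n
        rw [sup_comm, heq]
        exact AddSubgroup.mem_sup_right (pow_mem_T φ x (Nat.lt_succ_self j))
      have := two_mul_card_le hlt
      calc 2 ^ (j + 1) * Nat.card (T φ F n) = 2 * (2 ^ j * Nat.card (T φ F n)) := by ring
        _ ≤ 2 * Nat.card (T φ F n ⊔ T φ (AddSubgroup.zmultiples x) j : AddSubgroup G) :=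
          Nat.mul_le_mul_left _ (ih (by omega))
        _ ≤ _ := this
  rw [T_sup]
  exact key n le_rfl

/-- If no finite subgroup captures all of `G`, the entropy is infinite. -/
lemma ent_eq_top (htor : ∀ x : G, IsOfFinAddOrder x)
    (h : ∀ F : AddSubgroup G, Finite F → ∃ x : G, ∀ n N : ℕ,
      (it φ n) x ∉ T φ (AddSubgroup.zmultiples x) n ⊔ T φ F N) : ent φ = ⊤ := by
  have key : ∀ k : ℕ, ∃ F : AddSubgroup G, Finite F ∧ ∀ n, 2 ^ (k * n) ≤ Nat.card (T φ F n) := by
    intro k
    induction k with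
    | zero =>
      refine ⟨⊥, inferInstance, fun n => ?_⟩
      have h1 := card_pos φ (⊥ : AddSubgroup G) n
      rw [Nat.zero_mul, pow_zero]
      exact h1
    | succ k ih =>
      obtain ⟨F, hF, hk⟩ := ih
      obtain ⟨x, hx⟩ := h F hF
      have := hF
      have : Finite (AddSubgroup.zmultiples x) := (htor x).finite_zmultiples
      refine ⟨F ⊔ AddSubgroup.zmultiples x, (card_sup_le _ _).1, fun n => ?_⟩
      calc 2 ^ ((k + 1) * n) = 2 ^ n * 2 ^ (k * n) := by rw [← pow_add]; ring_nf
        _ ≤ 2 ^ n * Nat.card (T φ F n) := Nat.mul_le_mul_left _ (hk n)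
        _ ≤ _ := card_step φ F x (htor x) hx n
  rw [EReal.eq_top_iff_forall_lt]
  intro y
  obtain ⟨k, hk⟩ := exists_nat_gt (y / Real.log 2)
  obtain ⟨F, hF, hkF⟩ := key k
  have := hF
  have h2 : 0 < Real.log 2 := Real.log_pos (by norm_num)
  have h1 : y < H φ F := by
    rw [div_lt_iff₀ h2] at hk
    exact hk.trans_le (le_H_of_le φ F k hkF)
  refine lt_of_lt_of_le (EReal.coe_lt_coe_iff.2 h1) ?_
  exact le_iSup (fun F : {F : AddSubgroup G // Finite F} => (H φ F.1 : EReal)) ⟨F, hF⟩

end basic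

section top

variable {G : Type u} [AddCommGroup G] [TopologicalSpace G] [IsTopologicalAddGroup G]
  [CompactSpace G] [T2Space G]

/-- A continuous endomorphism of a compact Hausdorff torsion abelian group has algebraic entropy
zero or infinity. -/
theorem general (htor : ∀ x : G, IsOfFinAddOrder x) (φ : G →+ G) (hφ : Continuous φ) :
    ent φ = 0 ∨ ent φ = ⊤ := by
  by_cases h : ∀ F : AddSubgroup G, Finite F → ∃ x : G, ∀ n N : ℕ,
      (it φ n) x ∉ T φ (AddSubgroup.zmultiples x) n ⊔ T φ F N
  · exact Or.inr (ent_eq_top φ htor h)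
  left
  push Not at h
  obtain ⟨F, hF, hall⟩ := h
  have := hF
  have hcont : ∀ n : ℕ, Continuous (it φ n) := by
    intro n
    have h1 : (it φ n : G → G) = φ^[n] := funext (it_apply φ n)
    rw [h1]
    exact hφ.iterate n
  -- the countable family of closed sets
  let ι : Type u := Σ (n : ℕ) (_ : Fin n → ℤ) (N : ℕ), T φ F N
  have : ∀ N, Finite (T φ F N) := T_finite φ F
  have : Countable ι := by infer_instance
  let ψ : (n : ℕ) → (Fin n → ℤ) → (G →+ G) := fun n c =>
    (it φ n) - ∑ i : Fin n, c i • (it φ i : G →+ G)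
  have hψ : ∀ n c x, ψ n c x = (it φ n) x - ∑ i : Fin n, c i • (it φ i) x := by
    intro n c x
    simp only [ψ]
    rw [AddMonoidHom.sub_apply, AddMonoidHom.finsetSum_apply]
    rfl
  have hψc : ∀ n c, Continuous (ψ n c) := by
    intro n c
    have : (ψ n c : G → G) = fun x => (it φ n) x - ∑ i : Fin n, c i • (it φ i) x :=
      funext (hψ n c)
    rw [this]
    refine (hcont n).sub (continuous_finsetSum _ fun i _ => ?_)
    exact (hcont i).zsmul (c i)
  let S : ι → Set G := fun p => {x | ψ p.1 p.2.1 x = (p.2.2.2 : G)}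
  have hSc : ∀ p, IsClosed (S p) := fun p => isClosed_eq (hψc _ _) continuous_const
  have hSu : ⋃ p, S p = Set.univ := by
    rw [Set.eq_univ_iff_forall]
    intro x
    obtain ⟨n, N, hx⟩ := hall x
    obtain ⟨a, ha, b, hb, hab⟩ := AddSubgroup.mem_sup.1 hx
    obtain ⟨c, hc⟩ := mem_T_zmultiples φ x n ha
    rw [Set.mem_iUnion]
    refine ⟨⟨n, c, N, ⟨b, hb⟩⟩, ?_⟩
    show ψ n c x = b
    rw [hψ, ← hc, ← hab]
    abel
  obtain ⟨⟨n, c, N, v⟩, ⟨u, hu⟩⟩ := nonempty_interior_of_iUnion_of_closed hSc hSu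
  have huS : ψ n c u = v := by
    have h1 : u ∈ S ⟨n, c, N, v⟩ := interior_subset hu
    exact h1
  -- the kernel is open
  let K : AddSubgroup G := (ψ n c).ker
  have hKo : IsOpen (K : Set G) := by
    refine K.isOpen_of_mem_nhds (g := 0) ?_
    have h1 : S ⟨n, c, N, v⟩ ∈ 𝓝 (0 + u) := by
      rw [zero_add]; exact mem_interior_iff_mem_nhds.1 hu
    have h2 : (fun x => x + u) ⁻¹' S ⟨n, c, N, v⟩ ∈ 𝓝 (0 : G) :=
      (continuous_id.add continuous_const).continuousAt.preimage_mem_nhds h1
    refine mem_of_superset h2 ?_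
    intro x hx
    have hx' : ψ n c (x + u) = v := hx
    rw [map_add, huS] at hx'
    exact (AddMonoidHom.mem_ker).2 (by simpa using hx')
  have hfin : Finite (G ⧸ K) := AddSubgroup.quotient_finite_of_isOpen K hKo
  -- `K` is invariant under the powers of `φ`
  have hinv : ∀ (k : ℕ) (x : G), x ∈ K → (it φ k) x ∈ K := by
    intro k x hx
    rw [AddMonoidHom.mem_ker, hψ] at hx ⊢
    have e : ∀ (i : ℕ), (it φ i) ((it φ k) x) = (it φ k) ((it φ i) x) := by
      intro i
      rw [← it_add_apply, ← it_add_apply, add_comm]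
    have h2 : (it φ k) ((it φ n) x - ∑ i : Fin n, c i • (it φ i) x) = 0 := by
      rw [hx, map_zero]
    rw [map_sub, map_sum] at h2
    rw [e n]
    convert h2 using 2
    refine Finset.sum_congr rfl fun i _ => ?_
    rw [e i, map_zsmul]
  -- pigeonhole
  obtain ⟨a, b, hab, hq⟩ := Finite.exists_ne_map_eq_of_infinite
    (fun (k : ℕ) (q : G ⧸ K) => (QuotientAddGroup.mk ((it φ k) q.out) : G ⧸ K))
  wlog hlt : a < b generalizing a b
  · exact this b a hab.symm hq.symm (by omega)
  have hdiff : ∀ x : G, (it φ b) x - (it φ a) x ∈ K := by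
    intro x
    set q : G ⧸ K := QuotientAddGroup.mk x with hqdef
    have h1 : -q.out + x ∈ K := by
      rw [← QuotientAddGroup.eq]
      rw [QuotientAddGroup.out_eq']
    have h2 := congrFun hq q
    rw [QuotientAddGroup.eq] at h2
    have h3 := add_mem h2 (sub_mem (hinv b _ h1) (hinv a _ h1))
    convert h3 using 1
    rw [map_add, map_add, map_neg, map_neg]
    abel
  refine ent_eq_zero φ (n + b) fun x => ?_
  have hx := hdiff x
  rw [AddMonoidHom.mem_ker, hψ] at hx
  have e : ∀ (i j : ℕ), (it φ i) ((it φ j) x) = (it φ (i + j)) x := by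
    intro i j
    rw [it_add_apply]
  have hx2 : (it φ (n + b)) x = (it φ (n + a)) x +
      ∑ i : Fin n, c i • ((it φ ((i : ℕ) + b)) x - (it φ ((i : ℕ) + a)) x) := by
    have h5 : (it φ n) ((it φ b) x - (it φ a) x) = (it φ (n + b)) x - (it φ (n + a)) x := by
      rw [map_sub, e, e]
    have h6 : ∀ i : Fin n, (it φ i) ((it φ b) x - (it φ a) x) =
        (it φ ((i : ℕ) + b)) x - (it φ ((i : ℕ) + a)) x := by
      intro i
      rw [map_sub, e, e]
    rw [h5] at hx
    simp only [h6] at hx
    rw [sub_sub, sub_eq_zero] at hx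
    exact hx
  rw [hx2]
  refine add_mem (pow_mem_T φ x (by omega)) (sum_mem fun i _ => ?_)
  refine AddSubgroup.zsmul_mem _ (sub_mem (pow_mem_T φ x ?_) (pow_mem_T φ x ?_)) _
  · have := i.2; omega
  · have := i.2; omega

end top

/-- Let `K` be a finite abelian group with the discrete topology. There is no continuous
endomorphism `φ` of `K^ℕ` (with coordinatewise addition and the product topology) whose algebraic
entropy satisfies `0 < ent(φ) < ∞`. -/
theorem result (K : Type u) [AddCommGroup K] [Finite K] [TopologicalSpace K]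
    [DiscreteTopology K] :
    ¬ ∃ φ : AddMonoid.End (ℕ → K), Continuous φ ∧ 0 < ent φ ∧ ent φ < ⊤ := by
  rintro ⟨φ, hφ, h0, h1⟩
  have : IsTopologicalAddGroup K := inferInstance
  have htor : ∀ x : ℕ → K, IsOfFinAddOrder x := by
    intro x
    rw [isOfFinAddOrder_iff_nsmul_eq_zero]
    refine ⟨Nat.card K, Nat.card_pos, ?_⟩
    funext i
    exact card_nsmul_eq_zero'
  rcases general htor φ hφ with h | h
  · exact h0.ne' h
  · exact h1.ne h

end Pool.Agent.Results.MP_e13f3c_al.EntropyDichotomy
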